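import Pool.Agent.H93.CUBE.LStmts

set_option autoImplicit false

open Polynomial
open Pool.CM

namespace Pool.H93.Cube

theorem NFX_thm (h1 : REGStmt) (h2 : SHEStmt) (_ : EXGStmt) : NFXStmt := by
  intro X E _ A hA m _ _ G n hG
  obtain ⟨m', _, _, H1, H1', i1, r1⟩ := h1 X E A hA m G n hG
  have : CharZero E := charZero_of_Ax hA
  obtain ⟨u, w, _, _, _, _, H2, H2', Bu, Bn, i2, nf⟩ := h2 E m' (gau (nabF E) H1 H1' G) r1
  refine ⟨u, w, inferInstance, inferInstance, inferInstance, inferInstance, H1 * H2, H2' * H1',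
    Bu, Bn, i1.mul i2, ?_⟩
  rw [← gau_gau _ i1]
  exact nf

end Pool.H93.Cube
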