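import Pool.Agent.H20.CUBE.Reg4
import Pool.Agent.H93.CUBE.LDefs
import Pool.Agent.H80.CM.Poly
import Pool.Agent.H10.CM.All

set_option autoImplicit false

/-!
# Lemma REG (Katz), part 5: the matrix form, in the language of block LIMIT

`regF` : if the connection matrix `G` over `E(x)` has the nilpotency property `NilF` then there
is a gauge transformation which makes it regular at `0`.
-/

open Polynomial Filter Module Pool.H93.Cube
open Pool.CM hiding gau

namespace Pool.H20.Reg

section mat
variable {F : Type} [Field F] {m : Type} [Fintype m] [DecidableEq m]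

omit [DecidableEq m] in
theorem opF_smul (d : Derivation ℤ F F) (G : Matrix m m F) (f : F) (v : m → F) :
    opF d G (f • v) = d f • v + f • opF d G v := by
  funext a
  rw [opF_apply, Pi.add_apply, Pi.smul_apply, Pi.smul_apply, Pi.smul_apply, opF_apply]
  have h : ∀ b, G a b * (f • v) b = f * (G a b * v b) := fun b => by
    rw [Pi.smul_apply, smul_eq_mul]
    ring
  simp only [h, ← Finset.mul_sum, smul_eq_mul]
  rw [d.leibniz]
  simp only [smul_eq_mul]
  ring

/-- entries of the gauge transform as coordinates -/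
theorem gau_entry (d : Derivation ℤ F F) (G : Matrix m m F) (B : Basis m F (m → F)) (i j : m) :
    gau d ((Pi.basisFun F m).toMatrix B) (B.toMatrix (Pi.basisFun F m)) G i j
      = B.repr (opF d G (B j)) i := by
  have h1 : ∀ w : m → F, ((B.toMatrix (Pi.basisFun F m)).mulVec w) i = B.repr w i := by
    intro w
    exact congrFun ((Pi.basisFun F m).toMatrix_mulVec_repr B w) i
  unfold gau
  rw [Matrix.mul_assoc, ← Matrix.mul_add, ← h1]
  rw [Matrix.mul_apply]
  simp only [Matrix.mulVec, dotProduct]
  apply Finset.sum_congr rfl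
  intro a _
  congr 1

end mat

section reg
variable {X : Idx} {E : Type} [Field E] {A : PF X E}

/-- almost all places, as a filter -/
def evF (X : Idx) : Filter X.I := Filter.comap X.p Filter.atTop

theorem evF_iff (S : X.I → Prop) : (∀ᶠ i in evF X, S i) ↔ X.Ev S := by
  unfold evF
  rw [Filter.eventually_comap]
  constructor
  · intro h
    obtain ⟨B, hB⟩ := Filter.eventually_atTop.1 h
    exact ⟨B, fun i hi => hB (X.p i) hi.le i rfl⟩
  · rintro ⟨B, hB⟩
    refine Filter.eventually_atTop.2 ⟨B + 1, fun b hb i hi => hB i ?_⟩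
    omega

instance evF_neBot : (evF X).NeBot := by
  rw [Filter.neBot_iff]
  intro h
  have h1 : ∀ᶠ i in evF X, False := by rw [h]; trivial
  rw [evF_iff] at h1
  obtain ⟨i, _, hi⟩ := Idx.Ev.exists h1 0
  exact hi

theorem prime_p (hA : A.Ax) (i : X.I) : Prime ((X.p i : ℕ) : A.O i) := by
  have hL := Pool.H80.CM.loc hA i
  refine ⟨hL.ne, hL.nu, fun a b hab => ?_⟩
  by_contra hcon
  push Not at hcon
  have h1 := (hL.mx a hcon.1).mul (hL.mx b hcon.2)
  exact hL.nu (isUnit_of_dvd_unit hab h1)

/-- **Lemma REG** over `F = E(x)`. -/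
theorem regF (hA : A.Ax) {m : Type} [Fintype m] [DecidableEq m] (G : Matrix m m (RatFunc E))
    (n : ℕ) (hG : NilF A G n) :
    ∃ H H' : Matrix m m (RatFunc E), Inv2 H H' ∧
      ∀ i j, ex E (gau (nabF E) H H' G i j) ∈ Rg E := by
  classical
  have hnab : ∀ x k, (ex E (nabF E x)).coeff k = (k : E) * (ex E x).coeff k :=
    fun x k => (Pool.CM.All.xde X E A x k).1
  have hlam : ex E (RatFunc.X : RatFunc E) = HahnSeries.single 1 1 := by
    rw [← RatFunc.algebraMap_X, ex_algebraMap, ← Polynomial.monomial_one_one_eq_X,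
      Pool.CM.XT.exP_monomial]
    rfl
  have hnil : Nil X.p A.O (evF X) (ex E) (opF (nabF E) G) n := by
    intro v l
    have h1 := (hG v)
    -- the functional has integral coefficients at almost all places
    have h2 : X.Ev fun i => ∀ a, ex E (l (Pi.single a 1)) ∈ IL (A.O i) := by
      refine Idx.Ev.all fun a => ?_
      obtain ⟨d, hd⟩ := Pool.CM.All.tfx X (RatFunc E) A.ext (Pool.CM.All.ext X E A hA)
        (l (Pi.single a 1))
      exact hd.mono fun i hi => (Pool.CM.All.xt X E A hA i d _ hi).1
    rw [evF_iff]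
    refine (h1.and h2).mono fun i hi k => ?_
    obtain ⟨hi1, hi2⟩ := hi
    set w := (((opF (nabF E) G) ^ (X.p i) - opF (nabF E) G) ^ (n + 1)) v
    have h3 : l w = ∑ a, w a * l (Pi.single a 1) := by
      conv_lhs => rw [LinearMap.pi_apply_eq_sum_univ l w]
      apply Finset.sum_congr rfl
      intro a _
      rw [smul_eq_mul]
      congr 2
      funext j
      rw [Pi.single_apply]
      simp only [eq_comm]
    have h4 : ex E (l w) ∈ pL (A.O i) (X.p i) 1 := by
      rw [h3, map_sum]
      apply sum_mem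
      intro a _
      rw [map_mul]
      exact pL_mul_right (hi1 a) (hi2 a)
    obtain ⟨y, hy, hy2⟩ := h4 k
    exact ⟨y, hy, by rw [hy2, pow_one]⟩
  obtain ⟨ι, hι, B0, hB0⟩ := reg_basis (fun i => (X.hp i).two_le) (prime_p hA)
    (fun x hx => (evF_iff _).2 ((hA.pf2 x hx).mono fun i hi => ⟨hi.2.1, hi.2.2⟩)) hnab hlam _
    (m → RatFunc E) (opF (nabF E) G) (opF_smul _ _) hnil rfl
  have hcard : Fintype.card ι = Fintype.card m := by
    rw [← finrank_eq_card_basis B0, finrank_pi]
  let e : ι ≃ m := Fintype.equivOfCardEq hcard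
  let B : Basis m (RatFunc E) (m → RatFunc E) := B0.reindex e
  have hB : ∀ j, opF (nabF E) G (B j) ∈ Submodule.span (RegR (ex E)) (Set.range B) := by
    intro j
    have h1 : Set.range B = Set.range B0 := Basis.range_reindex B0 e
    rw [h1, Basis.reindex_apply]
    exact hB0 _
  refine ⟨(Pi.basisFun _ m).toMatrix B, B.toMatrix (Pi.basisFun _ m), ⟨?_, ?_⟩, ?_⟩
  · exact Basis.toMatrix_mul_toMatrix_flip B (Pi.basisFun _ m)
  · exact Basis.toMatrix_mul_toMatrix_flip (Pi.basisFun _ m) B
  · intro i j
    rw [gau_entry]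
    have h1 := (B.mem_span_iff_repr_mem (RegR (ex E)) _).1 (hB j) i
    obtain ⟨y, hy⟩ := h1
    rw [← hy]
    intro k hk
    exact y.2 k (by exact_mod_cast hk)

end reg

end Pool.H20.Reg
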