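import Pool.Agent.H93.CUBE.LStmts
import Pool.Agent.H20.CUBE.Reg5

set_option autoImplicit false

open Polynomial
open Pool.CM hiding gau

namespace Pool.H93.Cube

theorem REG_thm (_ : EXOStmt) (_ : EXIStmt) : REGStmt := by
  intro X E _ A hA m _ _ G n hG
  obtain ⟨H, H', h1, h2⟩ := Pool.H20.Reg.regF hA G n hG
  exact ⟨m, inferInstance, inferInstance, H, H', h1, fun i j => h2 i j⟩

end Pool.H93.Cube
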