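import Mathlib

set_option autoImplicit false

/-!
# Lemma REG (Katz): nilpotent p-curvature implies regular singular point

Part 1: leading coefficients at rational exponents, cyclic submodules.
-/

open Polynomial

namespace Pool.H20.Reg

section og
variable {E : Type*} [Field E]

/-- order at least `q` -/
def Og (q : ℚ) (x : LaurentSeries E) : Prop := ∀ k : ℤ, (k : ℚ) < q → x.coeff k = 0

/-- coefficient at a rational exponent (zero if it is not an integer) -/
noncomputable def lc (q : ℚ) (x : LaurentSeries E) : E :=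
  if ((⌊q⌋ : ℤ) : ℚ) = q then x.coeff ⌊q⌋ else 0

theorem Og.mono {q q' : ℚ} (h : q' ≤ q) {x : LaurentSeries E} (hx : Og q x) : Og q' x :=
  fun k hk => hx k (lt_of_lt_of_le hk h)

theorem Og.add {q : ℚ} {x y : LaurentSeries E} (hx : Og q x) (hy : Og q y) : Og q (x + y) := by
  intro k hk
  rw [HahnSeries.coeff_add, hx k hk, hy k hk, add_zero]

theorem Og.zero (q : ℚ) : Og q (0 : LaurentSeries E) := fun _ _ => by simp

theorem lc_add (q : ℚ) (x y : LaurentSeries E) : lc q (x + y) = lc q x + lc q y := by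
  unfold lc
  split_ifs <;> simp

theorem lc_zero (q : ℚ) : lc q (0 : LaurentSeries E) = 0 := by
  unfold lc
  split_ifs <;> simp

theorem lc_of_og {q q' : ℚ} (h : q' < q) {x : LaurentSeries E} (hx : Og q x) : lc q' x = 0 := by
  unfold lc
  split_ifs with h1
  · exact hx _ (by rw [h1]; exact h)
  · rfl

theorem Og.mul {q q' : ℚ} {x y : LaurentSeries E} (hx : Og q x) (hy : Og q' y) :
    Og (q + q') (x * y) := by
  intro k hk
  rw [HahnSeries.coeff_mul]
  apply Finset.sum_eq_zero
  rintro ⟨i, j⟩ hij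
  rw [Finset.mem_antidiagonal] at hij
  obtain ⟨h1, h2, h3⟩ := hij
  simp only at h1 h2 h3 ⊢
  by_cases hi : (i : ℚ) < q
  · rw [hx i hi, zero_mul]
  · have hj : (j : ℚ) < q' := by
      have : (k : ℚ) = i + j := by rw [← h3]; push_cast; ring
      linarith
    rw [hy j hj, mul_zero]

theorem lc_mul {q q' : ℚ} {x y : LaurentSeries E} (hx : Og q x) (hy : Og q' y) :
    lc (q + q') (x * y) = lc q x * lc q' y := by
  by_cases hq : ((⌊q⌋ : ℤ) : ℚ) = q
  · by_cases hq' : ((⌊q'⌋ : ℤ) : ℚ) = q'
    · have e : ⌊q + q'⌋ = ⌊q⌋ + ⌊q'⌋ := by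
        rw [← hq, ← hq', ← Int.cast_add, Int.floor_intCast, Int.floor_intCast, Int.floor_intCast]
      have e2 : ((⌊q + q'⌋ : ℤ) : ℚ) = q + q' := by rw [e]; push_cast; rw [hq, hq']
      unfold lc
      rw [if_pos hq, if_pos hq', if_pos e2, e, HahnSeries.coeff_mul]
      by_cases hm : (⌊q⌋, ⌊q'⌋) ∈ Finset.antidiagonal x.isPWO_support y.isPWO_support
          (⌊q⌋ + ⌊q'⌋)
      · rw [Finset.sum_eq_single_of_mem _ hm]
        rintro ⟨i, j⟩ hij hne
        rw [Finset.mem_antidiagonal] at hij
        obtain ⟨h1, h2, h3⟩ := hij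
        simp only at h1 h2 h3 ⊢
        by_cases hi : (i : ℚ) < q
        · rw [hx i hi, zero_mul]
        · by_cases hj : (j : ℚ) < q'
          · rw [hy j hj, mul_zero]
          · exfalso
            apply hne
            rw [← hq] at hi
            rw [← hq'] at hj
            have hi' : ⌊q⌋ ≤ i := by exact_mod_cast not_lt.1 hi
            have hj' : ⌊q'⌋ ≤ j := by exact_mod_cast not_lt.1 hj
            ext <;> simp only <;> omega
      · have hz : x.coeff ⌊q⌋ * y.coeff ⌊q'⌋ = 0 := by
          by_contra h0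
          apply hm
          rw [Finset.mem_antidiagonal]
          exact ⟨left_ne_zero_of_mul h0, right_ne_zero_of_mul h0, rfl⟩
        rw [hz]
        apply Finset.sum_eq_zero
        rintro ⟨i, j⟩ hij
        rw [Finset.mem_antidiagonal] at hij
        obtain ⟨h1, h2, h3⟩ := hij
        simp only at h1 h2 h3 ⊢
        by_cases hi : (i : ℚ) < q
        · rw [hx i hi, zero_mul]
        · by_cases hj : (j : ℚ) < q'
          · rw [hy j hj, mul_zero]
          · rw [← hq] at hi
            rw [← hq'] at hj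
            have hi' : ⌊q⌋ ≤ i := by exact_mod_cast not_lt.1 hi
            have hj' : ⌊q'⌋ ≤ j := by exact_mod_cast not_lt.1 hj
            have e1 : i = ⌊q⌋ := by omega
            have e2 : j = ⌊q'⌋ := by omega
            rw [e1, e2, hz]
    · have e2 : ¬ ((⌊q + q'⌋ : ℤ) : ℚ) = q + q' := by
        intro h
        apply hq'
        have : q' = ((⌊q + q'⌋ - ⌊q⌋ : ℤ) : ℚ) := by push_cast; rw [h, hq]; ring
        rw [this, Int.floor_intCast]
      unfold lc
      rw [if_neg hq', if_neg e2, mul_zero]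
  · unfold lc
    rw [if_neg hq, zero_mul]
    split_ifs with h
    · rw [HahnSeries.coeff_mul]
      apply Finset.sum_eq_zero
      rintro ⟨i, j⟩ hij
      rw [Finset.mem_antidiagonal] at hij
      obtain ⟨h1, h2, h3⟩ := hij
      simp only at h1 h2 h3 ⊢
      by_cases hi : (i : ℚ) < q
      · rw [hx i hi, zero_mul]
      · by_cases hj : (j : ℚ) < q'
        · rw [hy j hj, mul_zero]
        · exfalso
          apply hq
          have h4 : (i : ℚ) + j = q + q' := by rw [← h, ← h3]; push_cast; ring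
          have h5 : q = i := by linarith [not_lt.1 hi, not_lt.1 hj]
          rw [h5, Int.floor_intCast]
    · rfl

theorem Og.one : Og 0 (1 : LaurentSeries E) := by
  intro k hk
  rw [HahnSeries.coeff_one, if_neg]
  rintro rfl
  simp at hk

theorem lc_one : lc 0 (1 : LaurentSeries E) = 1 := by
  unfold lc
  simp

theorem og_sum {ι : Type*} (s : Finset ι) (f : ι → LaurentSeries E) {q : ℚ}
    (h : ∀ i ∈ s, Og q (f i)) : Og q (∑ i ∈ s, f i) := by
  classical
  induction s using Finset.induction_on with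
  | empty => simpa using Og.zero q
  | insert a s ha ih =>
    rw [Finset.sum_insert ha]
    exact (h a (Finset.mem_insert_self a s)).add
      (ih fun i hi => h i (Finset.mem_insert_of_mem hi))

theorem lc_smul_int (q : ℚ) (a : ℤ) (x : LaurentSeries E) : lc q (a • x) = a • lc q x := by
  unfold lc
  split_ifs
  · rw [HahnSeries.coeff_smul]
  · rw [smul_zero]

theorem Og.smul_int {q : ℚ} {x : LaurentSeries E} (hx : Og q x) (a : ℤ) : Og q (a • x) := by
  intro k hk
  rw [HahnSeries.coeff_smul, hx k hk, smul_zero]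

end og

section rem
variable {R : Type*} [CommRing R]

/-- `X ^ (s + 1) - ∑ i ≤ s, g i X ^ i` -/
noncomputable def chi (s : ℕ) (g : ℕ → R) : R[X] :=
  X ^ (s + 1) - ∑ i ∈ Finset.range (s + 1), C (g i) * X ^ i

theorem degree_q (s : ℕ) (g : ℕ → R) :
    degree (∑ i ∈ Finset.range (s + 1), C (g i) * X ^ i) ≤ s := by
  refine (degree_sum_le _ _).trans ?_
  rw [Finset.sup_le_iff]
  intro i hi
  refine (degree_C_mul_X_pow_le i (g i)).trans ?_
  exact_mod_cast Nat.lt_succ_iff.1 (Finset.mem_range.1 hi)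

theorem chi_monic (s : ℕ) (g : ℕ → R) : (chi s g).Monic :=
  monic_X_pow_sub (by
    refine (degree_q s g).trans_lt ?_
    exact_mod_cast Nat.lt_succ_self s)

theorem chi_coeff (s : ℕ) (g : ℕ → R) (i : ℕ) (hi : i ≤ s) : (chi s g).coeff i = - g i := by
  unfold chi
  rw [coeff_sub, coeff_X_pow, if_neg (by omega), finsetSum_coeff]
  simp only [coeff_C_mul, coeff_X_pow, mul_ite, mul_one, mul_zero]
  rw [Finset.sum_ite_eq, if_pos (Finset.mem_range.2 (by omega)), zero_sub]

theorem chi_degree [Nontrivial R] (s : ℕ) (g : ℕ → R) : (chi s g).degree = (s + 1 : ℕ) := by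
  unfold chi
  rw [degree_sub_eq_left_of_degree_lt]
  · exact degree_X_pow _
  · rw [degree_X_pow]
    refine (degree_q s g).trans_lt ?_
    exact_mod_cast Nat.lt_succ_self s

theorem chi_map {S : Type*} [CommRing S] (f : R →+* S) (s : ℕ) (g : ℕ → R) :
    (chi s g).map f = chi s (fun i => f (g i)) := by
  unfold chi
  simp [Polynomial.map_sum]

theorem rem_succ [Nontrivial R] (s : ℕ) (g : ℕ → R) (k : ℕ) :
    (X ^ (k + 1) : R[X]) %ₘ chi s g
      = X * ((X ^ k : R[X]) %ₘ chi s g) - C (((X ^ k : R[X]) %ₘ chi s g).coeff s) * chi s g := by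
  have hm := chi_monic s g
  set r := (X ^ k : R[X]) %ₘ chi s g with hr
  have h1 : r + chi s g * ((X ^ k : R[X]) /ₘ chi s g) = X ^ k := modByMonic_add_div _ _
  refine (div_modByMonic_unique (X * ((X ^ k : R[X]) /ₘ chi s g) + C (r.coeff s))
    (X * r - C (r.coeff s) * chi s g) hm ⟨?_, ?_⟩).2
  · generalize (X ^ k : R[X]) /ₘ chi s g = q at h1 ⊢
    rw [pow_succ', ← h1]
    ring
  · rw [chi_degree, degree_lt_iff_coeff_zero]
    intro m hm'
    have hrd : r.degree < (s + 1 : ℕ) := by
      rw [← chi_degree s g]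
      exact degree_modByMonic_lt _ hm
    rw [degree_lt_iff_coeff_zero] at hrd
    obtain ⟨m, rfl⟩ : ∃ m', m = m' + 1 := ⟨m - 1, by omega⟩
    rw [coeff_sub, coeff_X_mul, coeff_C_mul]
    by_cases he : m = s
    · subst he
      have : (chi m g).coeff (m + 1) = 1 := by
        have h2 := hm.coeff_natDegree
        have h3 : (chi m g).natDegree = m + 1 := natDegree_eq_of_degree_eq_some (chi_degree m g)
        rwa [h3] at h2
      rw [this, mul_one, sub_self]
    · have h2 : (chi s g).coeff (m + 1) = 0 := by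
        apply coeff_eq_zero_of_degree_lt
        rw [chi_degree]
        exact_mod_cast (by omega : s + 1 < m + 1)
      rw [h2, mul_zero, sub_zero]
      exact hrd m (by omega)

theorem rem_coeff_succ [Nontrivial R] (s : ℕ) (g : ℕ → R) (k i : ℕ) (hi : i ≤ s) :
    ((X ^ (k + 1) : R[X]) %ₘ chi s g).coeff i
      = (if i = 0 then 0 else ((X ^ k : R[X]) %ₘ chi s g).coeff (i - 1))
        + ((X ^ k : R[X]) %ₘ chi s g).coeff s * g i := by
  rw [rem_succ, coeff_sub, coeff_C_mul, chi_coeff s g i hi]
  cases i with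
  | zero => simp
  | succ i => simp [coeff_X_mul]

theorem rem_zero_coeff [Nontrivial R] (s : ℕ) (g : ℕ → R) (i : ℕ) :
    ((X ^ 0 : R[X]) %ₘ chi s g).coeff i = if i = 0 then 1 else 0 := by
  have h : (X ^ 0 : R[X]) %ₘ chi s g = 1 := by
    rw [pow_zero]
    apply (modByMonic_eq_self_iff (chi_monic s g)).2
    rw [chi_degree, degree_one]
    exact_mod_cast Nat.succ_pos s
  rw [h, coeff_one]

end rem

/-- The residue argument: if all coefficients of `X ^ k mod χ` are divisible by `p` then so are all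
coefficients of `χ`. -/
theorem coeff_dvd {O : Type*} [CommRing O] [IsDomain O] {p : O} (hp : Prime p) (s : ℕ)
    (g : ℕ → O) (k : ℕ) (h : ∀ i ≤ s, p ∣ ((X ^ k : O[X]) %ₘ chi s g).coeff i) :
    ∀ i ≤ s, p ∣ g i := by
  have hP : (Ideal.span {p}).IsPrime := (Ideal.span_singleton_prime hp.ne_zero).2 hp
  let κ := O ⧸ Ideal.span {p}
  let π : O →+* κ := Ideal.Quotient.mk _
  have : IsDomain κ := Ideal.Quotient.isDomain _
  have hπ : ∀ x : O, π x = 0 ↔ p ∣ x := fun x => by
    change Ideal.Quotient.mk _ x = 0 ↔ _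
    rw [Ideal.Quotient.eq_zero_iff_mem, Ideal.mem_span_singleton]
  have h1 : ((X ^ k : O[X]) %ₘ chi s g).map π = 0 := by
    ext i
    rw [coeff_map, coeff_zero, hπ]
    by_cases hi : i ≤ s
    · exact h i hi
    · have : ((X ^ k : O[X]) %ₘ chi s g).coeff i = 0 := by
        apply coeff_eq_zero_of_degree_lt
        refine (degree_modByMonic_lt _ (chi_monic s g)).trans_le ?_
        rw [chi_degree]
        exact_mod_cast (by omega : s + 1 ≤ i)
      rw [this]
      exact dvd_zero p
  rw [map_modByMonic π (chi_monic s g), Polynomial.map_pow, map_X, chi_map] at h1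
  have hm : (chi s fun i => π (g i)).Monic := chi_monic _ _
  have h2 : (chi s fun i => π (g i)) ∣ X ^ k := (modByMonic_eq_zero_iff_dvd hm).1 h1
  obtain ⟨j, hj, hass⟩ := (dvd_prime_pow (prime_X (R := κ)) k).1 h2
  have h3 : (chi s fun i => π (g i)) = X ^ j :=
    eq_of_monic_of_associated hm (monic_X_pow j) hass
  have h4 : j = s + 1 := by
    have := congrArg degree h3
    rw [chi_degree, degree_X_pow] at this
    exact_mod_cast this.symm
  intro i hi
  rw [← hπ]
  have h5 := chi_coeff s (fun i => π (g i)) i hi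
  rw [h3, h4, coeff_X_pow, if_neg (by omega)] at h5
  simpa using h5.symm

end Pool.H20.Reg
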