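import Pool.Agent.H20.CUBE.Reg1

set_option autoImplicit false

/-!
# Lemma REG (Katz), part 2: the cyclic submodule
-/

open Polynomial

namespace Pool.H20.Reg

section cyc
variable {E F V : Type*} [Field E] [Field F] [AddCommGroup V] [Module F V]
variable {ex : F →+* LaurentSeries E} {nab : F → F}
  {T : Module.End ℤ V} {b : V} {s : ℕ} {c : ℕ → F} {l : ℕ → V →ₗ[F] F}

theorem cyc_key (hT : ∀ (f : F) (v : V), T (f • v) = nab f • v + f • T v)
    (hb : (T ^ (s + 1)) b = ∑ i ∈ Finset.range (s + 1), c i • (T ^ i) b) (a : ℕ → F) :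
    T (∑ i ∈ Finset.range (s + 1), a i • (T ^ i) b)
      = ∑ i ∈ Finset.range (s + 1),
          (nab (a i) + (if i = 0 then 0 else a (i - 1)) + a s * c i) • (T ^ i) b := by
  have h1 : ∀ i, T ((T ^ i) b) = (T ^ (i + 1)) b := fun i => by
    rw [pow_succ']; rfl
  rw [map_sum]
  simp only [hT, h1, Finset.sum_add_distrib, add_smul]
  rw [add_assoc]
  congr 1
  rw [Finset.sum_range_succ, hb, Finset.smul_sum]
  simp only [smul_smul]
  congr 1
  rw [Finset.sum_range_succ' (fun i => (if i = 0 then (0 : F) else a (i - 1)) • (T ^ i) b)]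
  simp

theorem cyc_expand (hT : ∀ (f : F) (v : V), T (f • v) = nab f • v + f • T v)
    (hb : (T ^ (s + 1)) b = ∑ i ∈ Finset.range (s + 1), c i • (T ^ i) b)
    (hl : ∀ i ≤ s, ∀ j ≤ s, l i ((T ^ j) b) = if i = j then 1 else 0) (k : ℕ) :
    (T ^ k) b = ∑ i ∈ Finset.range (s + 1), l i ((T ^ k) b) • (T ^ i) b ∧
    ∀ i ≤ s, l i ((T ^ (k + 1)) b) = nab (l i ((T ^ k) b))
      + (if i = 0 then 0 else l (i - 1) ((T ^ k) b)) + l s ((T ^ k) b) * c i := by
  have hd : ∀ d : ℕ → F, ∀ i ≤ s, l i (∑ j ∈ Finset.range (s + 1), d j • (T ^ j) b) = d i := by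
    intro d i hi
    rw [map_sum]
    simp only [map_smul, smul_eq_mul]
    rw [Finset.sum_congr rfl (fun j hj => by
      rw [hl i hi j (Nat.lt_succ_iff.1 (Finset.mem_range.1 hj))])]
    simp only [mul_ite, mul_one, mul_zero]
    rw [Finset.sum_ite_eq, if_pos (Finset.mem_range.2 (by omega))]
  have h1 : ∀ k, (T ^ (k + 1)) b = T ((T ^ k) b) := fun k => by rw [pow_succ']; rfl
  have h2 : ∀ k, (T ^ k) b = ∑ i ∈ Finset.range (s + 1), l i ((T ^ k) b) • (T ^ i) b := by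
    intro k
    induction k with
    | zero =>
      have h3 : ∀ i ∈ Finset.range (s + 1), l i ((T ^ 0) b) • (T ^ i) b
          = if i = 0 then b else 0 := by
        intro i hi
        rw [hl i (Nat.lt_succ_iff.1 (Finset.mem_range.1 hi)) 0 (Nat.zero_le s)]
        split_ifs with h
        · rw [h, one_smul, pow_zero]; rfl
        · rw [zero_smul]
      rw [Finset.sum_congr rfl h3, Finset.sum_ite_eq', if_pos (Finset.mem_range.2 (by omega)),
        pow_zero]
      rfl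
    | succ k ih =>
      have h4 : (T ^ (k + 1)) b = ∑ i ∈ Finset.range (s + 1), (nab (l i ((T ^ k) b))
          + (if i = 0 then 0 else l (i - 1) ((T ^ k) b)) + l s ((T ^ k) b) * c i) • (T ^ i) b := by
        rw [h1 k]
        conv_lhs => rw [ih]
        exact cyc_key hT hb fun i => l i ((T ^ k) b)
      conv_lhs => rw [h4]
      apply Finset.sum_congr rfl
      intro i hi
      congr 1
      rw [h4, hd _ i (Nat.lt_succ_iff.1 (Finset.mem_range.1 hi))]
  refine ⟨h2 k, fun i hi => ?_⟩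
  have h4 : (T ^ (k + 1)) b = ∑ i ∈ Finset.range (s + 1), (nab (l i ((T ^ k) b))
      + (if i = 0 then 0 else l (i - 1) ((T ^ k) b)) + l s ((T ^ k) b) * c i) • (T ^ i) b := by
    rw [h1 k]
    conv_lhs => rw [h2 k]
    exact cyc_key hT hb fun i => l i ((T ^ k) b)
  rw [h4, hd _ i hi]

variable (ex c s) in
/-- the leading coefficients of the `c i` -/
noncomputable def gg (μ : ℚ) (i : ℕ) : E := lc (-(μ * ((s + 1 : ℕ) - i))) (ex (c i))

theorem cyc_og (hnab : ∀ x k, (ex (nab x)).coeff k = (k : E) * (ex x).coeff k)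
    (hT : ∀ (f : F) (v : V), T (f • v) = nab f • v + f • T v)
    (hb : (T ^ (s + 1)) b = ∑ i ∈ Finset.range (s + 1), c i • (T ^ i) b)
    (hl : ∀ i ≤ s, ∀ j ≤ s, l i ((T ^ j) b) = if i = j then 1 else 0) {μ : ℚ} (hμ : 0 < μ)
    (hc : ∀ i ≤ s, Og (-(μ * ((s + 1 : ℕ) - i))) (ex (c i))) (k : ℕ) :
    ∀ i ≤ s, Og (-(μ * (k - i))) (ex (l i ((T ^ k) b))) ∧
      lc (-(μ * (k - i))) (ex (l i ((T ^ k) b)))
        = ((X ^ k : E[X]) %ₘ chi s (gg ex s c μ)).coeff i := by
  induction k with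
  | zero =>
    intro i hi
    rw [hl i hi 0 (Nat.zero_le s), rem_zero_coeff]
    by_cases h : i = 0
    · subst h
      have e : -(μ * (((0 : ℕ) : ℚ) - ((0 : ℕ) : ℚ))) = 0 := by simp
      rw [e, if_pos rfl, if_pos rfl, map_one]
      exact ⟨Og.one, lc_one⟩
    · rw [if_neg h, if_neg h, map_zero]
      exact ⟨Og.zero _, lc_zero _⟩
  | succ k ih =>
    intro i hi
    have hrec := (cyc_expand hT hb hl k).2 i hi
    rw [hrec, rem_coeff_succ s _ k i hi, map_add, map_add, map_mul]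
    obtain ⟨ho, hlc⟩ := ih i hi
    obtain ⟨hos, hlcs⟩ := ih s le_rfl
    -- the derivative term
    have hn : Og (-(μ * ((k : ℚ) - i))) (ex (nab (l i ((T ^ k) b)))) := by
      intro j hj
      rw [hnab, ho j hj, mul_zero]
    have hlt : -(μ * (((k + 1 : ℕ) : ℚ) - i)) < -(μ * ((k : ℚ) - i)) := by
      push_cast
      nlinarith
    have hn1 : Og (-(μ * (((k + 1 : ℕ) : ℚ) - i))) (ex (nab (l i ((T ^ k) b)))) :=
      hn.mono hlt.le
    have hn2 : lc (-(μ * (((k + 1 : ℕ) : ℚ) - i))) (ex (nab (l i ((T ^ k) b)))) = 0 :=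
      lc_of_og hlt hn
    -- the shifted term
    have hs : Og (-(μ * (((k + 1 : ℕ) : ℚ) - i)))
          (ex (if i = 0 then 0 else l (i - 1) ((T ^ k) b))) ∧
        lc (-(μ * (((k + 1 : ℕ) : ℚ) - i))) (ex (if i = 0 then 0 else l (i - 1) ((T ^ k) b)))
          = if i = 0 then 0 else ((X ^ k : E[X]) %ₘ chi s (gg ex s c μ)).coeff (i - 1) := by
      by_cases h : i = 0
      · rw [if_pos h, if_pos h, map_zero]
        exact ⟨Og.zero _, lc_zero _⟩
      · rw [if_neg h, if_neg h]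
        obtain ⟨i, rfl⟩ : ∃ i', i = i' + 1 := ⟨i - 1, by omega⟩
        have e : -(μ * (((k + 1 : ℕ) : ℚ) - ((i + 1 : ℕ) : ℚ))) = -(μ * ((k : ℚ) - i)) := by
          push_cast; ring
        rw [e]
        exact ih i (by omega)
    -- the product
    have ep : -(μ * (((k + 1 : ℕ) : ℚ) - i))
        = -(μ * ((k : ℚ) - s)) + -(μ * (((s + 1 : ℕ) : ℚ) - i)) := by
      push_cast; ring
    have hp : Og (-(μ * (((k + 1 : ℕ) : ℚ) - i))) (ex (l s ((T ^ k) b)) * ex (c i)) := by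
      rw [ep]
      exact hos.mul (hc i hi)
    have hp2 : lc (-(μ * (((k + 1 : ℕ) : ℚ) - i))) (ex (l s ((T ^ k) b)) * ex (c i))
        = ((X ^ k : E[X]) %ₘ chi s (gg ex s c μ)).coeff s * gg ex s c μ i := by
      rw [ep, lc_mul hos (hc i hi), hlcs]
      rfl
    refine ⟨(hn1.add hs.1).add hp, ?_⟩
    rw [lc_add, lc_add, hn2, hs.2, hp2, zero_add]

theorem cyc_poly (hnab : ∀ x k, (ex (nab x)).coeff k = (k : E) * (ex x).coeff k)
    (hT : ∀ (f : F) (v : V), T (f • v) = nab f • v + f • T v)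
    (hb : (T ^ (s + 1)) b = ∑ i ∈ Finset.range (s + 1), c i • (T ^ i) b)
    (hl : ∀ i ≤ s, ∀ j ≤ s, l i ((T ^ j) b) = if i = j then 1 else 0) {μ : ℚ} (hμ : 0 < μ)
    (hc : ∀ i ≤ s, Og (-(μ * ((s + 1 : ℕ) - i))) (ex (c i))) (Q : ℤ[X]) (hQ : Q.Monic)
    (i : ℕ) (hi : i ≤ s) :
    lc (-(μ * (Q.natDegree - i))) (ex (l i (aeval T Q b)))
      = ((X ^ Q.natDegree : E[X]) %ₘ chi s (gg ex s c μ)).coeff i := by
  have h1 : ex (l i (aeval T Q b))
      = ∑ k ∈ Finset.range Q.natDegree, Q.coeff k • ex (l i ((T ^ k) b))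
        + ex (l i ((T ^ Q.natDegree) b)) := by
    rw [aeval_eq_sum_range, LinearMap.sum_apply, map_sum, map_sum, Finset.sum_range_succ]
    congr 1
    · apply Finset.sum_congr rfl
      intro k _
      rw [LinearMap.smul_apply, map_zsmul, map_zsmul]
    · rw [hQ.coeff_natDegree, one_smul]
  rw [h1, lc_add, ← (cyc_og hnab hT hb hl hμ hc Q.natDegree i hi).2]
  have h2 : lc (-(μ * ((Q.natDegree : ℚ) - i)))
      (∑ k ∈ Finset.range Q.natDegree, Q.coeff k • ex (l i ((T ^ k) b))) = 0 := by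
    apply lc_of_og (q := -(μ * ((Q.natDegree : ℚ) - 1 - i)))
    · nlinarith
    · apply og_sum
      intro k hk
      apply Og.smul_int
      refine (cyc_og hnab hT hb hl hμ hc k i hi).1.mono ?_
      have hk' : (k : ℚ) + 1 ≤ Q.natDegree := by
        exact_mod_cast Finset.mem_range.1 hk
      nlinarith
  rw [h2, zero_add]

theorem monic_Q (p n : ℕ) (hp : 2 ≤ p) : (((X : ℤ[X]) ^ p - X) ^ (n + 1)).Monic := by
  apply Monic.pow
  apply monic_X_pow_sub
  rw [degree_X]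
  exact_mod_cast (by omega : 1 < p)

/-- The core of the argument at one place. -/
theorem cyc_core (hnab : ∀ x k, (ex (nab x)).coeff k = (k : E) * (ex x).coeff k)
    (hT : ∀ (f : F) (v : V), T (f • v) = nab f • v + f • T v)
    (hb : (T ^ (s + 1)) b = ∑ i ∈ Finset.range (s + 1), c i • (T ^ i) b)
    (hl : ∀ i ≤ s, ∀ j ≤ s, l i ((T ^ j) b) = if i = j then 1 else 0) {μ : ℚ} (hμ : 0 < μ)
    (hc : ∀ i ≤ s, Og (-(μ * ((s + 1 : ℕ) - i))) (ex (c i)))
    (O : Subring E) (p n : ℕ) (hp2 : 2 ≤ p) (hp : Prime ((p : ℕ) : O))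
    (hg : ∀ i ≤ s, gg ex s c μ i ∈ O)
    (hnil : ∀ i ≤ s, ∀ k : ℤ, ∃ y ∈ O,
      (ex (l i (((T ^ p - T) ^ (n + 1)) b))).coeff k = (p : E) * y) :
    ∀ i ≤ s, ∃ y ∈ O, gg ex s c μ i = (p : E) * y := by
  classical
  let Q : ℤ[X] := (X ^ p - X) ^ (n + 1)
  have hQ : Q.Monic := monic_Q p n hp2
  have hQT : aeval T Q = (T ^ p - T) ^ (n + 1) := by
    simp [Q]
  let gO : ℕ → O := fun i => if h : i ≤ s then ⟨gg ex s c μ i, hg i h⟩ else 0
  have hmap : (chi s gO).map O.subtype = chi s (gg ex s c μ) := by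
    rw [chi_map]
    unfold chi
    congr 1
    apply Finset.sum_congr rfl
    intro i hi
    have hi' : i ≤ s := Nat.lt_succ_iff.1 (Finset.mem_range.1 hi)
    simp only [gO, dif_pos hi']
    rfl
  have h1 : ∀ i ≤ s, ((p : ℕ) : O) ∣ ((X ^ Q.natDegree : O[X]) %ₘ chi s gO).coeff i := by
    intro i hi
    have h2 := cyc_poly hnab hT hb hl hμ hc Q hQ i hi
    rw [hQT] at h2
    have h3 : ((X ^ Q.natDegree : E[X]) %ₘ chi s (gg ex s c μ)).coeff i
        = O.subtype (((X ^ Q.natDegree : O[X]) %ₘ chi s gO).coeff i) := by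
      rw [← coeff_map, map_modByMonic _ (chi_monic s gO), Polynomial.map_pow, map_X, hmap]
    rw [h3] at h2
    have h4 : ∃ y ∈ O, lc (-(μ * ((Q.natDegree : ℚ) - i)))
        (ex (l i (((T ^ p - T) ^ (n + 1)) b))) = (p : E) * y := by
      unfold lc
      split_ifs
      · exact hnil i hi _
      · exact ⟨0, O.zero_mem, by simp⟩
    obtain ⟨y, hy, h5⟩ := h4
    refine ⟨⟨y, hy⟩, ?_⟩
    apply Subtype.ext
    rw [h5] at h2
    simpa using h2.symm
  have h6 := coeff_dvd hp s gO Q.natDegree h1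
  intro i hi
  obtain ⟨y, hy⟩ := h6 i hi
  refine ⟨y, y.2, ?_⟩
  have := congrArg Subtype.val hy
  simp only [gO, dif_pos hi] at this
  simpa using this

end cyc

end Pool.H20.Reg
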