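import Pool.Agent.H20.CUBE.Reg2

set_option autoImplicit false

/-!
# Lemma REG (Katz), part 3: regular bases
-/

open Polynomial Filter

namespace Pool.H20.Reg

section nil
variable {I E F V : Type*} [Field E] [Field F] [AddCommGroup V] [Module F V]
  (p : I → ℕ) (O : I → Subring E) (ev : Filter I) (ex : F →+* LaurentSeries E)

/-- For all fixed vectors `v` and functionals `l`, at almost all places, the value of `l` at
`((T ^ p - T) ^ (n + 1)) v` is divisible by `p`. -/
def Nil (T : Module.End ℤ V) (n : ℕ) : Prop :=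
  ∀ (v : V) (l : V →ₗ[F] F), ∀ᶠ i in ev, ∀ k : ℤ, ∃ y ∈ O i,
    (ex (l (((T ^ p i - T) ^ (n + 1)) v))).coeff k = (p i : E) * y

variable {p O ev ex}

theorem cyc_regular [ev.NeBot] {nab : F → F} {T : Module.End ℤ V} {b : V} {s : ℕ} {c : ℕ → F}
    {l : ℕ → V →ₗ[F] F} {n : ℕ}
    (hp2 : ∀ i, 2 ≤ p i) (hpr : ∀ i, Prime ((p i : ℕ) : O i))
    (hun : ∀ x : E, x ≠ 0 → ∀ᶠ i in ev, x ∈ O i ∧ x⁻¹ ∈ O i)
    (hnab : ∀ x k, (ex (nab x)).coeff k = (k : E) * (ex x).coeff k)
    (hT : ∀ (f : F) (v : V), T (f • v) = nab f • v + f • T v)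
    (hb : (T ^ (s + 1)) b = ∑ i ∈ Finset.range (s + 1), c i • (T ^ i) b)
    (hl : ∀ i ≤ s, ∀ j ≤ s, l i ((T ^ j) b) = if i = j then 1 else 0)
    (hnil : Nil p O ev ex T n) : ∀ i ≤ s, Og 0 (ex (c i)) := by
  classical
  by_contra hcon
  push Not at hcon
  obtain ⟨i0, hi0, hreg⟩ := hcon
  let w : ℕ → ℚ := fun i => -((ex (c i)).order : ℚ) / ((s + 1 : ℕ) - i)
  obtain ⟨i1, hi1, hmax⟩ := Finset.exists_max_image (Finset.range (s + 1)) w ⟨0, by simp⟩
  have hi1' : i1 ≤ s := Nat.lt_succ_iff.1 (Finset.mem_range.1 hi1)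
  have hden : ∀ i ≤ s, (0 : ℚ) < ((s + 1 : ℕ) - i) := by
    intro i hi
    have : (i : ℚ) ≤ s := by exact_mod_cast hi
    push_cast
    linarith
  have hord0 : (ex (c i0)).order < 0 := by
    unfold Og at hreg
    push Not at hreg
    obtain ⟨k, hk, hk2⟩ := hreg
    have h1 : (ex (c i0)).order ≤ k := HahnSeries.order_le_of_coeff_ne_zero hk2
    have h2 : k < 0 := by exact_mod_cast hk
    omega
  have hμ : 0 < w i1 := by
    refine lt_of_lt_of_le ?_ (hmax i0 (Finset.mem_range.2 (by omega)))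
    apply div_pos _ (hden i0 hi0)
    have : ((ex (c i0)).order : ℚ) < 0 := by exact_mod_cast hord0
    linarith
  set μ := w i1 with hμdef
  have hc : ∀ i ≤ s, Og (-(μ * ((s + 1 : ℕ) - i))) (ex (c i)) := by
    intro i hi k hk
    apply HahnSeries.coeff_eq_zero_of_lt_order
    have h1 := hmax i (Finset.mem_range.2 (by omega))
    rw [div_le_iff₀ (hden i hi)] at h1
    have h2 : (k : ℚ) < ((ex (c i)).order : ℚ) := by linarith
    exact_mod_cast h2
  have heq : -(μ * ((s + 1 : ℕ) - i1)) = ((ex (c i1)).order : ℚ) := by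
    rw [hμdef]
    simp only [w]
    rw [div_mul_cancel₀ _ (hden i1 hi1').ne']
    ring
  have hne : ex (c i1) ≠ 0 := by
    intro h
    rw [h, HahnSeries.order_zero] at heq
    have := mul_pos hμ (hden i1 hi1')
    simp only [Int.cast_zero] at heq
    linarith
  have hgne : gg ex s c μ i1 ≠ 0 := by
    unfold gg lc
    rw [heq, Int.floor_intCast, if_pos rfl]
    exact HahnSeries.coeff_order_eq_zero.not.2 hne
  have e1 : ∀ i ∈ Finset.range (s + 1), ∀ᶠ q in ev, gg ex s c μ i ∈ O q := by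
    intro i _
    by_cases h0 : gg ex s c μ i = 0
    · rw [h0]
      exact Eventually.of_forall fun q => (O q).zero_mem
    · exact (hun _ h0).mono fun q hq => hq.1
  have e2 : ∀ i ∈ Finset.range (s + 1), ∀ᶠ q in ev, ∀ k : ℤ, ∃ y ∈ O q,
      (ex (l i (((T ^ p q - T) ^ (n + 1)) b))).coeff k = (p q : E) * y := fun i _ =>
    hnil b (l i)
  have e1' := (Finset.eventually_all (Finset.range (s + 1))).2 e1
  have e2' := (Finset.eventually_all (Finset.range (s + 1))).2 e2
  obtain ⟨q, hq1, hq2, hq3⟩ := (e1'.and (e2'.and (hun _ hgne))).exists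
  obtain ⟨y, hy, hy2⟩ := cyc_core hnab hT hb hl hμ hc (O q) (p q) n (hp2 q) (hpr q)
    (fun i hi => hq1 i (Finset.mem_range.2 (by omega)))
    (fun i hi => hq2 i (Finset.mem_range.2 (by omega))) i1 hi1'
  apply (hpr q).not_isUnit
  apply IsUnit.of_mul_eq_one (⟨y * (gg ex s c μ i1)⁻¹, (O q).mul_mem hy hq3.2⟩ : O q)
  apply Subtype.ext
  have : (p q : E) * (y * (gg ex s c μ i1)⁻¹) = 1 := by
    rw [← mul_assoc, ← hy2, mul_inv_cancel₀ hgne]
  simpa using this

end nil

section lattice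
variable {E F : Type*} [Field E] [Field F]

/-- the regular elements -/
def RegR (ex : F →+* LaurentSeries E) : Subring F where
  carrier := {x | Og 0 (ex x)}
  mul_mem' := by
    intro x y hx hy
    have := Og.mul hx hy
    rw [Set.mem_ofPred_eq, map_mul]
    simpa using this
  one_mem' := by
    rw [Set.mem_ofPred_eq, map_one]
    exact Og.one
  add_mem' := by
    intro x y hx hy
    rw [Set.mem_ofPred_eq, map_add]
    exact Og.add hx hy
  zero_mem' := by
    rw [Set.mem_ofPred_eq, map_zero]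
    exact Og.zero 0
  neg_mem' := by
    intro x hx k hk
    rw [map_neg, HahnSeries.coeff_neg, hx k hk, neg_zero]

theorem mem_RegR {ex : F →+* LaurentSeries E} {x : F} : x ∈ RegR ex ↔ Og 0 (ex x) := Iff.rfl

/-- a large power of `lam` makes everything regular -/
theorem exists_pow {ex : F →+* LaurentSeries E} {lam : F}
    (hlam : ex lam = HahnSeries.single 1 1) (x : F) :
    ∃ K₀ : ℕ, ∀ K ≥ K₀, x * lam ^ K ∈ RegR ex := by
  refine ⟨(-(ex x).order).toNat, fun K hK k hk => ?_⟩
  have hk' : k < 0 := by exact_mod_cast hk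
  have h1 : ex (lam ^ K) = HahnSeries.single (K : ℤ) 1 := by
    rw [map_pow, hlam, HahnSeries.single_pow]
    simp
  rw [map_mul, h1, mul_comm]
  have h2 : k = (k - K) + K := by ring
  rw [h2, HahnSeries.coeff_single_mul_add, one_mul]
  apply HahnSeries.coeff_eq_zero_of_lt_order
  omega

theorem lam_ne {ex : F →+* LaurentSeries E} {lam : F}
    (hlam : ex lam = HahnSeries.single 1 1) : lam ≠ 0 := by
  rintro rfl
  rw [map_zero] at hlam
  have := congrArg (fun f => HahnSeries.coeff f 1) hlam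
  simp at this

theorem nab_lam_inv {ex : F →+* LaurentSeries E} {lam : F} {nab : F → F}
    (hnab : ∀ x k, (ex (nab x)).coeff k = (k : E) * (ex x).coeff k)
    (hlam : ex lam = HahnSeries.single 1 1) (K : ℕ) :
    nab ((lam ^ K)⁻¹) = -(K : F) * (lam ^ K)⁻¹ := by
  apply ex.injective
  have h1 : ex ((lam ^ K)⁻¹) = HahnSeries.single (-(K : ℤ)) 1 := by
    rw [map_inv₀, map_pow, hlam, HahnSeries.single_pow]
    apply inv_eq_of_mul_eq_one_left
    rw [HahnSeries.single_mul_single]
    simp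
  ext k
  rw [hnab, map_mul, map_neg, map_natCast, h1]
  rw [neg_mul, HahnSeries.coeff_neg]
  have h2 : ((K : LaurentSeries E) * HahnSeries.single (-(K : ℤ)) (1 : E)).coeff k
      = (K : E) * (HahnSeries.single (-(K : ℤ)) (1 : E) : LaurentSeries E).coeff k := by
    rw [← nsmul_eq_mul, HahnSeries.coeff_smul, nsmul_eq_mul]
  rw [h2]
  by_cases hk : k = -(K : ℤ)
  · subst hk
    simp
  · rw [HahnSeries.coeff_single_of_ne hk]
    simp

end lattice

end Pool.H20.Reg
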