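import Pool.Agent.H20.CUBE.Reg3

set_option autoImplicit false

/-!
# Lemma REG (Katz), part 4: the induction
-/

open Polynomial Filter Module

namespace Pool.H20.Reg

universe u

section fin
variable {I E F : Type*} [Field E] [Field F]
  {p : I → ℕ} {O : I → Subring E} {ev : Filter I} {ex : F →+* LaurentSeries E}

/-- A cyclic family: the powers `T ^ i b`, `i ≤ s`, are a basis of a stable subspace. -/
theorem exists_cyc {V : Type u} [AddCommGroup V] [Module F V] [FiniteDimensional F V]
    (T : Module.End ℤ V) (b : V) (hb0 : b ≠ 0) :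
    ∃ (s : ℕ) (c : ℕ → F), LinearIndependent F (fun i : Fin (s + 1) => (T ^ (i : ℕ)) b) ∧
      (T ^ (s + 1)) b = ∑ i ∈ Finset.range (s + 1), c i • (T ^ i) b := by
  classical
  have hex : ∃ r : ℕ, ¬ LinearIndependent F (fun i : Fin r => (T ^ (i : ℕ)) b) := by
    refine ⟨finrank F V + 1, fun h => ?_⟩
    have := h.fintype_card_le_finrank
    simp at this
  have hfind := Nat.find_spec hex
  set r := Nat.find hex with hr
  have hr0 : r ≠ 0 := by
    intro h
    rw [h] at hfind
    exact hfind linearIndependent_empty_type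
  have hr1 : r ≠ 1 := by
    intro h
    rw [h] at hfind
    apply hfind
    rw [linearIndependent_unique_iff]
    simpa using hb0
  obtain ⟨s, hs⟩ : ∃ s, r = s + 2 := ⟨r - 2, by omega⟩
  have hli : LinearIndependent F (fun i : Fin (s + 1) => (T ^ (i : ℕ)) b) := by
    by_contra h
    have := Nat.find_min' hex h
    omega
  rw [hs] at hfind
  rw [linearIndependent_finSucc'] at hfind
  have hinit : (Fin.init fun i : Fin (s + 1 + 1) => (T ^ (i : ℕ)) b)
      = fun i : Fin (s + 1) => (T ^ (i : ℕ)) b := by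
    funext i
    simp [Fin.init]
  rw [hinit] at hfind
  have hmem : (T ^ (s + 1)) b ∈ Submodule.span F
      (Set.range fun i : Fin (s + 1) => (T ^ (i : ℕ)) b) := by
    by_contra h
    apply hfind
    refine ⟨hli, ?_⟩
    simpa using h
  rw [Submodule.mem_span_range_iff_exists_fun] at hmem
  obtain ⟨d, hd⟩ := hmem
  refine ⟨s, fun i => if h : i < s + 1 then d ⟨i, h⟩ else 0, hli, ?_⟩
  rw [← hd, Finset.sum_range]
  apply Finset.sum_congr rfl
  intro i _
  simp only [dif_pos i.2]

/-- **Lemma REG**, basis-free form: if the `p`-curvature is nilpotent at almost all places then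
there is a basis in which the connection is regular. -/
theorem reg_basis [ev.NeBot] {nab : F → F} {lam : F} {n : ℕ}
    (hp2 : ∀ i, 2 ≤ p i) (hpr : ∀ i, Prime ((p i : ℕ) : O i))
    (hun : ∀ x : E, x ≠ 0 → ∀ᶠ i in ev, x ∈ O i ∧ x⁻¹ ∈ O i)
    (hnab : ∀ x k, (ex (nab x)).coeff k = (k : E) * (ex x).coeff k)
    (hlam : ex lam = HahnSeries.single 1 1) (N : ℕ) :
    ∀ (V : Type u) [AddCommGroup V] [Module F V] [FiniteDimensional F V] (T : Module.End ℤ V)
      (_ : ∀ (f : F) (v : V), T (f • v) = nab f • v + f • T v) (_ : Nil p O ev ex T n)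
      (_ : finrank F V = N),
    ∃ (ι : Type) (_ : Fintype ι) (B : Basis ι F V),
      ∀ j, T (B j) ∈ Submodule.span (RegR ex) (Set.range B) := by
  classical
  induction N using Nat.strong_induction_on with
  | _ N ih =>
  intro V _ _ _ T hT hnil hN
  rcases Nat.eq_zero_or_pos N with h0 | hpos
  · have hsub : Subsingleton V := finrank_zero_iff.1 (hN.trans h0)
    exact ⟨Empty, inferInstance, Basis.empty V, fun j => j.elim⟩
  -- a cyclic vector
  have hnt : Nontrivial V := by
    apply nontrivial_of_finrank_pos (R := F)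
    rw [hN]; exact hpos
  obtain ⟨b, hb0⟩ := exists_ne (0 : V)
  obtain ⟨s, c, hli, hb⟩ := exists_cyc (F := F) T b hb0
  let W : Submodule F V := Submodule.span F (Set.range fun i : Fin (s + 1) => (T ^ (i : ℕ)) b)
  let bW : Basis (Fin (s + 1)) F W := Basis.span hli
  have hbW : ∀ i, (bW i : V) = (T ^ (i : ℕ)) b := fun i =>
    congrArg Subtype.val (Basis.span_apply hli i)
  -- functionals
  have hfun : ∀ i : Fin (s + 1), ∃ g : V →ₗ[F] F, g ∘ₗ W.subtype = bW.coord i := fun i =>
    LinearMap.exists_extend _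
  choose g hg using hfun
  have hg' : ∀ i j : Fin (s + 1), g i ((T ^ (j : ℕ)) b) = if i = j then 1 else 0 := by
    intro i j
    rw [← hbW j]
    have := LinearMap.congr_fun (hg i) (bW j)
    rw [LinearMap.comp_apply, Submodule.subtype_apply] at this
    rw [this, Basis.coord_apply, Basis.repr_self, Finsupp.single_apply]
    simp only [eq_comm]
  let l : ℕ → V →ₗ[F] F := fun i => if h : i < s + 1 then g ⟨i, h⟩ else 0
  have hl : ∀ i ≤ s, ∀ j ≤ s, l i ((T ^ j) b) = if i = j then 1 else 0 := by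
    intro i hi j hj
    have := hg' ⟨i, by omega⟩ ⟨j, by omega⟩
    simp only [Fin.mk.injEq] at this
    simp only [l, dif_pos (show i < s + 1 by omega)]
    exact this
  have hcreg := cyc_regular hp2 hpr hun hnab hT hb hl hnil
  -- the complement
  obtain ⟨C, hC⟩ := Submodule.exists_isCompl W
  let π : V →ₗ[F] C := C.projectionOnto W hC.symm
  have hπC : ∀ x : C, π x = x := fun x => Submodule.projectionOnto_apply_left hC.symm x
  have hπW : ∀ x ∈ W, π x = 0 := fun x hx =>
    (Submodule.projectionOnto_apply_eq_zero_iff hC.symm).2 hx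
  have hsubW : ∀ x : V, x - (π x : V) ∈ W := by
    intro x
    have : π (x - (π x : V)) = 0 := by rw [map_sub, hπC, sub_self]
    exact (Submodule.projectionOnto_apply_eq_zero_iff hC.symm).1 this
  have hTW : ∀ x ∈ W, T x ∈ W := by
    intro x hx
    rw [Submodule.mem_span_range_iff_exists_fun] at hx
    obtain ⟨d, rfl⟩ := hx
    rw [map_sum]
    apply Submodule.sum_mem
    intro i _
    rw [hT]
    apply Submodule.add_mem
    · exact W.smul_mem _ (Submodule.subset_span ⟨i, rfl⟩)
    · apply W.smul_mem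
      have h1 : T ((T ^ (i : ℕ)) b) = (T ^ ((i : ℕ) + 1)) b := by rw [pow_succ']; rfl
      rw [h1]
      by_cases hi : (i : ℕ) + 1 < s + 1
      · exact Submodule.subset_span ⟨⟨(i : ℕ) + 1, hi⟩, rfl⟩
      · have : (i : ℕ) + 1 = s + 1 := by omega
        rw [this, hb]
        apply Submodule.sum_mem
        intro j hj
        exact W.smul_mem _ (Submodule.subset_span ⟨⟨j, Finset.mem_range.1 hj⟩, rfl⟩)
  let Pz : V →ₗ[ℤ] C := π.restrictScalars ℤ
  let T' : Module.End ℤ C := (Pz ∘ₗ T) ∘ₗ (C.subtype.restrictScalars ℤ)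
  have hT'apply : ∀ x : C, T' x = π (T x) := fun x => rfl
  have hint : Pz ∘ₗ T = T' ∘ₗ Pz := by
    ext x
    have h1 : T x = T (x - (π x : V)) + T (π x : V) := by rw [← map_add, sub_add_cancel]
    have h2 : π (T x) = π (T (π x : V)) := by
      rw [h1, map_add, hπW _ (hTW _ (hsubW x)), zero_add]
    exact congrArg Subtype.val h2
  have hT' : ∀ (f : F) (v : C), T' (f • v) = nab f • v + f • T' v := by
    intro f v
    rw [hT'apply, hT'apply, Submodule.coe_smul, hT, map_add, map_smul, map_smul, hπC]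
  have hnil' : Nil p O ev ex T' n := by
    intro v g
    refine (hnil (v : V) (g ∘ₗ π)).mono fun q hq k => ?_
    obtain ⟨y, hy, h⟩ := hq k
    refine ⟨y, hy, ?_⟩
    rw [← h]
    have h3 : (T' ^ p q - T') ∘ₗ Pz = Pz ∘ₗ (T ^ p q - T) := by
      rw [LinearMap.sub_comp, LinearMap.comp_sub, hint,
        Module.End.commute_pow_left_of_commute hint.symm]
    have h4 := Module.End.commute_pow_left_of_commute h3 (n + 1)
    have h5 := LinearMap.congr_fun h4 (v : V)
    have h6 : Pz (v : V) = v := hπC v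
    rw [LinearMap.comp_apply, LinearMap.comp_apply, h6] at h5
    rw [h5]
    rfl
  have hsum : finrank F W + finrank F C = N := by
    rw [← hN]
    exact Submodule.finrank_add_eq_of_isCompl hC
  have hWpos : finrank F W = s + 1 := by
    rw [finrank_eq_card_basis bW, Fintype.card_fin]
  obtain ⟨ι, _, B', hB'⟩ := ih (finrank F C) (by omega) C T' hT' hnil' rfl
  -- the coefficients of the remainders
  have hrem : ∀ j : ι, ∃ d : Fin (s + 1) → F,
      ∑ i, d i • (T ^ (i : ℕ)) b = T (B' j : V) - (T' (B' j) : V) := by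
    intro j
    have := hsubW (T (B' j : V))
    rw [Submodule.mem_span_range_iff_exists_fun] at this
    exact this
  choose d hd using hrem
  have hK : ∃ K : ℕ, ∀ j i, d j i * lam ^ K ∈ RegR ex := by
    choose K₀ hK₀ using fun (ji : ι × Fin (s + 1)) => exists_pow hlam (d ji.1 ji.2)
    refine ⟨Finset.univ.sup K₀, fun j i => hK₀ (j, i) _ (Finset.le_sup (Finset.mem_univ (j, i)))⟩
  obtain ⟨K, hK⟩ := hK
  have hlam0 : lam ^ K ≠ 0 := pow_ne_zero _ (lam_ne hlam)
  -- the basis
  let bW' : Basis (Fin (s + 1)) F W :=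
    bW.unitsSMul (fun _ => (Units.mk0 (lam ^ K) hlam0)⁻¹)
  have hbW' : ∀ i, (bW' i : V) = (lam ^ K)⁻¹ • (T ^ (i : ℕ)) b := by
    intro i
    rw [Basis.unitsSMul_apply, Units.smul_def, Units.val_inv_eq_inv_val, Units.val_mk0,
      Submodule.coe_smul, hbW]
  let B : Basis (Fin (s + 1) ⊕ ι) F V :=
    (bW'.prod B').map (Submodule.prodEquivOfIsCompl W C hC)
  have hBl : ∀ i, B (Sum.inl i) = (lam ^ K)⁻¹ • (T ^ (i : ℕ)) b := by
    intro i
    rw [Basis.map_apply, Submodule.coe_prodEquivOfIsCompl', Basis.prod_apply_inl_fst,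
      Basis.prod_apply_inl_snd, hbW', Submodule.coe_zero, add_zero]
  have hBr : ∀ j, B (Sum.inr j) = (B' j : V) := by
    intro j
    rw [Basis.map_apply, Submodule.coe_prodEquivOfIsCompl', Basis.prod_apply_inr_fst,
      Basis.prod_apply_inr_snd, Submodule.coe_zero, zero_add]
  let M := Submodule.span (RegR ex) (Set.range B)
  have hMl : ∀ i < s + 1, (lam ^ K)⁻¹ • (T ^ i) b ∈ M := by
    intro i hi
    rw [← hBl ⟨i, hi⟩]
    exact Submodule.subset_span ⟨_, rfl⟩
  have hMsmul : ∀ (x : F), x ∈ RegR ex → ∀ v ∈ M, x • v ∈ M := fun x hx v hv =>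
    M.smul_mem (⟨x, hx⟩ : RegR ex) hv
  refine ⟨Fin (s + 1) ⊕ ι, inferInstance, B, ?_⟩
  rintro (i | j)
  · rw [hBl, hT, nab_lam_inv hnab hlam, mul_smul]
    apply Submodule.add_mem
    · apply hMsmul _ _ _ (hMl _ i.2)
      exact (RegR ex).neg_mem (natCast_mem _ K)
    · have h1 : T ((T ^ (i : ℕ)) b) = (T ^ ((i : ℕ) + 1)) b := by rw [pow_succ']; rfl
      rw [h1]
      by_cases hi : (i : ℕ) + 1 < s + 1
      · exact hMl _ hi
      · have : (i : ℕ) + 1 = s + 1 := by omega
        rw [this, hb, Finset.smul_sum]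
        apply Submodule.sum_mem
        intro j hj
        rw [smul_comm]
        exact hMsmul _ (hcreg j (Nat.lt_succ_iff.1 (Finset.mem_range.1 hj))) _
          (hMl j (Finset.mem_range.1 hj))
  · rw [hBr]
    have h1 : T (B' j : V) = (T' (B' j) : V) + ∑ i, d j i • (T ^ (i : ℕ)) b := by
      rw [hd j]; abel
    rw [h1]
    apply Submodule.add_mem
    · have h2 : (T' (B' j) : V) ∈ (Submodule.span (RegR ex) (Set.range B')).map
          (C.subtype.restrictScalars (RegR ex)) := ⟨T' (B' j), hB' j, rfl⟩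
      rw [Submodule.map_span] at h2
      refine Submodule.span_mono ?_ h2
      rintro _ ⟨_, ⟨k, rfl⟩, rfl⟩
      exact ⟨Sum.inr k, hBr k⟩
    · apply Submodule.sum_mem
      intro i _
      have h2 : d j i • (T ^ (i : ℕ)) b = (d j i * lam ^ K) • ((lam ^ K)⁻¹ • (T ^ (i : ℕ)) b) := by
        rw [smul_smul, mul_assoc, mul_inv_cancel₀ hlam0, mul_one]
      rw [h2]
      exact hMsmul _ (hK j i) _ (hMl _ i.2)

end fin

end Pool.H20.Reg
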